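import Pool.Agent.H65.HW.GStm

/-!
# Project HW, part EVD: even distribution (helper79)
-/

set_option autoImplicit false
open Classical Finset

namespace Pool.Agent.H79.HW

open Pool.Agent.H65.HW

/-- `N` is distributed evenly over a finite set -/
theorem even (A : Finset ℕ) (N : ℕ) (h : A.card = 0 → N = 0) :
    ∃ r : ℕ → ℕ, ∑ y ∈ A, r y = N ∧ ∀ y ∈ A, r y * A.card ≤ N + A.card := by
  rcases Nat.eq_zero_or_pos A.card with h0 | h0
  · refine ⟨fun _ => 0, ?_, ?_⟩
    · rw [Finset.sum_const_zero, h h0]
    · intro y hy
      simp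
  · obtain ⟨B, hBA, hB⟩ := Finset.exists_subset_card_eq (s := A) (n := N % A.card)
      (Nat.mod_lt N h0).le
    refine ⟨fun y => N / A.card + if y ∈ B then 1 else 0, ?_, ?_⟩
    · rw [Finset.sum_add_distrib, Finset.sum_const, smul_eq_mul, ← Finset.sum_filter,
        Finset.sum_const, smul_eq_mul, mul_one]
      have : A.filter (fun y => y ∈ B) = B := by
        ext y
        simp only [mem_filter]
        exact ⟨fun h => h.2, fun h => ⟨hBA h, h⟩⟩
      rw [this, hB]
      exact Nat.div_add_mod N A.card
    · intro y hy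
      have h1 : (if y ∈ B then 1 else 0) ≤ 1 := by split_ifs <;> simp
      have h2 : N / A.card * A.card ≤ N := Nat.div_mul_le_self N A.card
      calc (N / A.card + if y ∈ B then 1 else 0) * A.card
          ≤ (N / A.card + 1) * A.card := Nat.mul_le_mul_right _ (by omega)
        _ = N / A.card * A.card + A.card := by ring
        _ ≤ N + A.card := by omega

/-- part EVD -/
theorem t_EVD : S_EVD := by
  intro m H C part φ dd hm hz
  have hex : ∀ P β : ℕ, ∃ r : ℕ → ℕ, (P < H → β ∈ C →
      (∑ y ∈ (range m).filter (fun y => part y = P ∧ φ y = β), r y = dd P β ∧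
        ∀ y ∈ (range m).filter (fun y => part y = P ∧ φ y = β),
          r y * ((range m).filter (fun y => part y = P ∧ φ y = β)).card ≤
            dd P β + ((range m).filter (fun y => part y = P ∧ φ y = β)).card)) := by
    intro P β
    by_cases hP : P < H
    · by_cases hβ : β ∈ C
      · obtain ⟨r, h1, h2⟩ := even ((range m).filter (fun y => part y = P ∧ φ y = β)) (dd P β)
          (hz P hP β hβ)
        exact ⟨r, fun _ _ => ⟨h1, h2⟩⟩
      · exact ⟨fun _ => 0, fun _ h => absurd h hβ⟩
    · exact ⟨fun _ => 0, fun h => absurd h hP⟩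
  choose r hr using hex
  refine ⟨fun y => r (part y) (φ y) y, ?_, ?_, ?_⟩
  · intro y hy
    exact (hr (part y) (φ y) (hm y hy).1 (hm y hy).2).2 y
      (mem_filter.2 ⟨mem_range.2 hy, rfl, rfl⟩)
  · intro P hP
    have hmap : ∀ y ∈ (range m).filter (fun y => part y = P), φ y ∈ C := by
      intro y hy
      exact (hm y (mem_range.1 (mem_filter.1 hy).1)).2
    rw [← Finset.sum_fiberwise_of_maps_to hmap]
    refine Finset.sum_congr rfl ?_
    intro β hβ
    rw [Finset.filter_filter, ← (hr P β hP hβ).1]
    refine Finset.sum_congr rfl ?_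
    intro y hy
    rw [(mem_filter.1 hy).2.1, (mem_filter.1 hy).2.2]
  · intro β hβ
    have hmap : ∀ y ∈ (range m).filter (fun y => φ y = β), part y ∈ range H := by
      intro y hy
      exact mem_range.2 (hm y (mem_range.1 (mem_filter.1 hy).1)).1
    rw [← Finset.sum_fiberwise_of_maps_to hmap]
    refine Finset.sum_congr rfl ?_
    intro P hP
    rw [Finset.filter_filter, ← (hr P β (mem_range.1 hP) hβ).1]
    have he : (range m).filter (fun y => φ y = β ∧ part y = P) =
        (range m).filter (fun y => part y = P ∧ φ y = β) := by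
      ext y
      simp only [mem_filter]
      tauto
    rw [he]
    refine Finset.sum_congr rfl ?_
    intro y hy
    rw [(mem_filter.1 hy).2.1, (mem_filter.1 hy).2.2]

end Pool.Agent.H79.HW
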