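import Pool.Agent.H65.HW.GStm

/-!
# Project HW, part GRE: greedy edge colouring from lists (helper79)
-/

set_option autoImplicit false
open Classical Finset

namespace Pool.Agent.H79.HW

open Pool.Agent.H65.HW
open Pool.Agent.H21.HV (nb)

/-- the graph `Γ'` is coloured from the lists -/
def Gd {V : Type} (Γ' : SimpleGraph V) (Lst : V → V → Finset ℕ) : Prop :=
  ∃ c : V → V → ℕ, (∀ u v, c u v = c v u) ∧ (∀ u v, Γ'.Adj u v → c u v ∈ Lst u v) ∧
    ∀ u v w, Γ'.Adj u v → Γ'.Adj u w → v ≠ w → c u v ≠ c u w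

/-- part GRE -/
theorem t_GRE : S_GRE := by
  intro V _ Γ d Lst hsym hdeg hcard
  have hfin : Set.Finite {Γ' : SimpleGraph V | Γ' ≤ Γ ∧ Gd Γ' Lst} := Set.toFinite _
  have hne : Set.Nonempty {Γ' : SimpleGraph V | Γ' ≤ Γ ∧ Gd Γ' Lst} := by
    refine ⟨⊥, bot_le, fun _ _ => 0, fun _ _ => rfl, ?_, ?_⟩
    · intro u v h
      exact absurd h (by simp)
    · intro u v w h
      exact absurd h (by simp)
  obtain ⟨Γ', hΓ'⟩ := hfin.exists_maximal hne
  have hle : Γ' ≤ Γ := hΓ'.prop.1
  by_cases heq : Γ' = Γ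
  · rw [← heq]
    exact hΓ'.prop.2
  exfalso
  have hlt : ∃ a b, Γ.Adj a b ∧ ¬ Γ'.Adj a b := by
    by_contra hcon
    push Not at hcon
    exact heq (le_antisymm hle fun a b h => hcon a b h)
  obtain ⟨a, b, hab, hnab⟩ := hlt
  have hne' : a ≠ b := hab.ne
  obtain ⟨c, hcs, hcL, hcp⟩ := hΓ'.prop.2
  -- the neighbours in `Γ'`
  have hnb : ∀ u v, Γ.Adj u v → ¬ Γ'.Adj u v →
      (univ.filter (fun w => Γ'.Adj u w)).card + 1 ≤ d := by
    intro u v huv hnuv
    have hsub : insert v (univ.filter (fun w => Γ'.Adj u w)) ⊆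
        univ.filter (fun w => Γ.Adj u w) := by
      intro w hw
      rcases mem_insert.1 hw with h | h
      · exact mem_filter.2 ⟨mem_univ _, h ▸ huv⟩
      · exact mem_filter.2 ⟨mem_univ _, hle (mem_filter.1 h).2⟩
    have h1 := Finset.card_le_card hsub
    rw [Finset.card_insert_of_notMem (by simpa using hnuv)] at h1
    have h2 := hdeg u
    unfold nb at h2
    exact h1.trans h2
  have ha := hnb a b hab hnab
  have hb := hnb b a hab.symm (fun h => hnab h.symm)
  -- the new colour
  have hnew : ∃ n ∈ Lst a b, n ∉ (univ.filter (fun w => Γ'.Adj a w)).image (c a) ∪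
      (univ.filter (fun w => Γ'.Adj b w)).image (c b) := by
    by_contra hcon
    push Not at hcon
    have h1 := Finset.card_le_card (show Lst a b ⊆ _ from hcon)
    have h2 := (h1.trans (Finset.card_union_le _ _)).trans
      (Nat.add_le_add Finset.card_image_le Finset.card_image_le)
    have h3 := hcard a b hab
    omega
  obtain ⟨n, hnL, hnn⟩ := hnew
  have hna : ∀ w, Γ'.Adj a w → c a w ≠ n := by
    intro w hw h
    exact hnn (mem_union_left _ (mem_image.2 ⟨w, mem_filter.2 ⟨mem_univ _, hw⟩, h⟩))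
  have hnb' : ∀ w, Γ'.Adj b w → c b w ≠ n := by
    intro w hw h
    exact hnn (mem_union_right _ (mem_image.2 ⟨w, mem_filter.2 ⟨mem_univ _, hw⟩, h⟩))
  -- the larger graph
  have hbig : (Γ' ⊔ SimpleGraph.edge a b) ∈ {Γ' : SimpleGraph V | Γ' ≤ Γ ∧ Gd Γ' Lst} := by
    have hadj : ∀ u v, (Γ' ⊔ SimpleGraph.edge a b).Adj u v ↔
        Γ'.Adj u v ∨ (u = a ∧ v = b) ∨ (u = b ∧ v = a) := by
      intro u v
      rw [SimpleGraph.sup_adj, SimpleGraph.edge_adj]
      constructor
      · rintro (h | ⟨h, -⟩)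
        · exact Or.inl h
        · rcases h with ⟨h1, h2⟩ | ⟨h1, h2⟩
          · exact Or.inr (Or.inl ⟨by simp_all, by simp_all⟩)
          · exact Or.inr (Or.inr ⟨by simp_all, by simp_all⟩)
      · rintro (h | ⟨h1, h2⟩ | ⟨h1, h2⟩)
        · exact Or.inl h
        · subst h1; subst h2
          exact Or.inr ⟨by simp, hne'⟩
        · subst h1; subst h2
          exact Or.inr ⟨by simp, hne'.symm⟩
    refine ⟨?_, fun u v => if (u = a ∧ v = b) ∨ (u = b ∧ v = a) then n else c u v, ?_, ?_, ?_⟩
    · intro u v h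
      rcases (hadj u v).1 h with h | ⟨h1, h2⟩ | ⟨h1, h2⟩
      · exact hle h
      · rw [h1, h2]; exact hab
      · rw [h1, h2]; exact hab.symm
    · intro u v
      dsimp only
      by_cases h : (u = a ∧ v = b) ∨ (u = b ∧ v = a)
      · rw [if_pos h, if_pos (by tauto)]
      · rw [if_neg h, if_neg (by tauto), hcs]
    · intro u v h
      dsimp only
      by_cases h' : (u = a ∧ v = b) ∨ (u = b ∧ v = a)
      · rw [if_pos h']
        rcases h' with ⟨h1, h2⟩ | ⟨h1, h2⟩
        · rw [h1, h2]; exact hnL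
        · rw [h1, h2, hsym]; exact hnL
      · rw [if_neg h']
        have h2 : Γ'.Adj u v := by
          rcases (hadj u v).1 h with h | h
          · exact h
          · exact absurd h h'
        exact hcL u v h2
    · intro u v w huv huw hvw
      dsimp only
      have hk : ∀ u v w, (u = a ∧ v = b) ∨ (u = b ∧ v = a) →
          ¬ ((u = a ∧ w = b) ∨ (u = b ∧ w = a)) → (Γ' ⊔ SimpleGraph.edge a b).Adj u w →
          c u w ≠ n := by
        intro u v w h1 h2 h3
        have h4 : Γ'.Adj u w := by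
          rcases (hadj u w).1 h3 with h | h
          · exact h
          · exact absurd h h2
        rcases h1 with ⟨h1, -⟩ | ⟨h1, -⟩
        · rw [h1] at h4 ⊢; exact hna w h4
        · rw [h1] at h4 ⊢; exact hnb' w h4
      by_cases h1 : (u = a ∧ v = b) ∨ (u = b ∧ v = a)
      · by_cases h2 : (u = a ∧ w = b) ∨ (u = b ∧ w = a)
        · exfalso
          apply hvw
          rcases h1 with ⟨h1, h1'⟩ | ⟨h1, h1'⟩
          · rcases h2 with ⟨h2, h2'⟩ | ⟨h2, h2'⟩
            · rw [h1', h2']
            · exact absurd (h1.symm.trans h2) hne'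
          · rcases h2 with ⟨h2, h2'⟩ | ⟨h2, h2'⟩
            · exact absurd (h2.symm.trans h1) hne'
            · rw [h1', h2']
        · rw [if_pos h1, if_neg h2]
          exact (hk u v w h1 h2 huw).symm
      · by_cases h2 : (u = a ∧ w = b) ∨ (u = b ∧ w = a)
        · rw [if_neg h1, if_pos h2]
          exact hk u w v h2 h1 huv
        · rw [if_neg h1, if_neg h2]
          have h3 : Γ'.Adj u v := by
            rcases (hadj u v).1 huv with h | h
            · exact h
            · exact absurd h h1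
          have h4 : Γ'.Adj u w := by
            rcases (hadj u w).1 huw with h | h
            · exact h
            · exact absurd h h2
          exact hcp u v w h3 h4 hvw
  have hmax := hΓ'.le_of_ge hbig le_sup_left
  apply hnab
  have hadj2 : (Γ' ⊔ SimpleGraph.edge a b).Adj a b := by
    rw [SimpleGraph.sup_adj, SimpleGraph.edge_adj]
    exact Or.inr ⟨by simp, hne'⟩
  exact hmax hadj2

end Pool.Agent.H79.HW
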